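import Mathlib

/-!
# Powers modulo a prime polynomial with squarefree reduction (project NZ of helper164)
-/

set_option autoImplicit false

open Polynomial

namespace Pool.Agent.Y850.NZ

/-- a monic polynomial over a local ring whose reduction is squarefree is coprime to its derivative -/
theorem coprime_der (O F : Type) [CommRing O] [IsDomain O] [IsDiscreteValuationRing O]
    [Field F] [Finite F] (ρ : O →+* F) (hρ : Function.Surjective ρ) (P : O[X]) (hP : P.Monic)
    (hsq : Squarefree (P.map ρ)) : IsCoprime P (derivative P) := by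
  have hmax : RingHom.ker ρ = IsLocalRing.maximalIdeal O :=
    IsLocalRing.eq_maximalIdeal (RingHom.ker_isMaximal_of_surjective ρ hρ)
  have hunit : ∀ x : O, ρ x ≠ 0 → IsUnit x := by
    intro x hx
    by_contra h
    have h1 : x ∈ IsLocalRing.maximalIdeal O := (IsLocalRing.mem_maximalIdeal x).2 h
    rw [← hmax] at h1
    exact hx h1
  rw [← isUnit_resultant_iff_isCoprime hP]
  apply hunit
  rw [← resultant_map_map]
  have hsep : (P.map ρ).Separable := PerfectField.separable_iff_squarefree.2 hsq
  have hc : IsCoprime (P.map ρ) (derivative (P.map ρ)) := hsep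
  have hPm : (P.map ρ).Monic := hP.map ρ
  have hu := (isUnit_resultant_iff_isCoprime hPm).2 hc
  have hdeg : (P.map ρ).natDegree = P.natDegree := hP.natDegree_map ρ
  have hle : (derivative (P.map ρ)).natDegree ≤ (derivative P).natDegree := by
    rw [derivative_map]
    exact natDegree_map_le
  obtain ⟨j, hj⟩ := Nat.exists_eq_add_of_le hle
  have e := resultant_add_right_deg (P.map ρ) (derivative (P.map ρ)) (m := P.natDegree)
    (n := (derivative (P.map ρ)).natDegree) j le_rfl
  rw [← hj, ← hdeg] at e
  rw [derivative_map] at e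
  rw [← hdeg, e, coeff_natDegree, hPm.leadingCoeff, one_pow, one_mul]
  rw [← derivative_map]
  exact hu.ne_zero

theorem red (O k F : Type) [CommRing O] [IsDomain O] [IsDiscreteValuationRing O] [Field k]
    [Algebra O k] [IsFractionRing O k] [Field F] [Finite F] (ρ : O →+* F)
    (hρ : Function.Surjective ρ) (ℓ : ℕ) (hℓ : ℓ ≠ 0) (P G : O[X]) (hP : P.Monic)
    (hirr : Irreducible (P.map (algebraMap O k))) (hsq : Squarefree (P.map ρ))
    (hex : ∃ h : k[X], P.map (algebraMap O k) ∣ h ^ ℓ - G.map (algebraMap O k)) :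
    ∃ h : O[X], P ∣ h ^ ℓ - G := by
  obtain ⟨h, hh⟩ := hex
  obtain ⟨A, B, hAB⟩ := coprime_der O F ρ hρ P hP hsq
  set Pk : k[X] := P.map (algebraMap O k) with hPk
  have : Fact (Irreducible Pk) := ⟨hirr⟩
  have hmon : Pk.Monic := hP.map _
  have hdP : derivative Pk = (derivative P).map (algebraMap O k) := by
    rw [hPk, derivative_map]
  let L := AdjoinRoot Pk
  let pb : PowerBasis k L := AdjoinRoot.powerBasis hirr.ne_zero
  have hmin : minpoly k pb.gen = Pk := AdjoinRoot.minpoly_powerBasis_gen_of_monic hmon
  have hgen : pb.gen = AdjoinRoot.root Pk := rfl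
  have haev : ∀ f : O[X], aeval pb.gen f = AdjoinRoot.mk Pk (f.map (algebraMap O k)) := by
    intro f
    rw [hgen, ← aeval_map_algebraMap k, AdjoinRoot.aeval_eq]
  have hP0 : aeval pb.gen P = 0 := by
    rw [haev]
    exact AdjoinRoot.mk_self
  have hint : IsIntegral O pb.gen := ⟨P, hP, hP0⟩
  have hintf : ∀ f : O[X], IsIntegral O (aeval pb.gen f) := by
    intro f
    have h1 : aeval pb.gen f ∈ Algebra.adjoin O ({pb.gen} : Set L) :=
      aeval_mem_adjoin_singleton O pb.gen
    exact adjoin_le_integralClosure hint h1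
  -- separability
  have hsepP : Pk.Separable := by
    have h1 := congrArg (Polynomial.map (algebraMap O k)) hAB
    rw [Polynomial.map_add, Polynomial.map_mul, Polynomial.map_mul, Polynomial.map_one,
      ← derivative_map] at h1
    exact ⟨_, _, h1⟩
  have hsepg : IsSeparable k pb.gen := by
    unfold IsSeparable
    rw [hmin]
    exact hsepP
  have hsep : Algebra.IsSeparable k L := by
    rw [← separableClosure.eq_top_iff, ← top_le_iff]
    have h1 : IntermediateField.adjoin k ({pb.gen} : Set L) = ⊤ := by
      rw [hgen]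
      exact IntermediateField.adjoin_root_eq_top Pk
    rw [← h1, IntermediateField.adjoin_le_iff]
    rintro x hx
    rw [Set.mem_singleton_iff] at hx
    subst hx
    exact mem_separableClosure_iff.2 hsepg
  have : FiniteDimensional k L := pb.finite
  -- the root
  let z : L := AdjoinRoot.mk Pk h
  have hz : z ^ ℓ = aeval pb.gen G := by
    rw [haev, ← sub_eq_zero, ← map_pow, ← map_sub]
    exact AdjoinRoot.mk_eq_zero.2 hh
  have hzint : IsIntegral O z := by
    refine IsIntegral.of_pow (Nat.pos_of_ne_zero hℓ) ?_
    rw [hz]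
    exact hintf G
  have hd : Algebra.discr k pb.basis • z ∈ Algebra.adjoin O ({pb.gen} : Set L) :=
    Algebra.discr_mul_isIntegral_mem_adjoin k hint hzint
  -- the discriminant is a unit
  obtain ⟨u, hu, hud⟩ : ∃ u : O, IsUnit u ∧ algebraMap O k u = Algebra.discr k pb.basis := by
    have hab : aeval pb.gen (derivative P) * aeval pb.gen B = 1 := by
      have h1 := congrArg (aeval pb.gen) hAB
      rw [map_add, map_mul, map_mul, map_one, hP0, mul_zero, zero_add, mul_comm] at h1
      exact h1
    have hna := Algebra.isIntegral_norm k (hintf (derivative P))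
    have hnb := Algebra.isIntegral_norm k (hintf B)
    obtain ⟨x, hx⟩ := IsIntegrallyClosed.isIntegral_iff.1 hna
    obtain ⟨y, hy⟩ := IsIntegrallyClosed.isIntegral_iff.1 hnb
    have hxy : x * y = 1 := by
      apply IsFractionRing.injective O k
      rw [map_mul, map_one, hx, hy, ← map_mul, hab, map_one]
    refine ⟨(-1) ^ (pb.dim * (pb.dim - 1) / 2) * x, ?_, ?_⟩
    · exact ((isUnit_one.neg).pow _).mul (IsUnit.of_mul_eq_one y hxy)
    · have h2 := Algebra.discr_powerBasis_eq_norm (K := k) pb
      have h3 : Module.finrank k L = pb.dim := pb.finrank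
      rw [h2, h3, hmin, map_mul, map_pow, map_neg, map_one, hx]
      congr 2
      rw [hdP, aeval_map_algebraMap]
  obtain ⟨v, hv⟩ := hu.exists_left_inv
  have hzA : z ∈ Algebra.adjoin O ({pb.gen} : Set L) := by
    have h1 : z = v • (Algebra.discr k pb.basis • z) := by
      rw [← hud, algebraMap_smul, smul_smul, hv, one_smul]
    rw [h1]
    exact Subalgebra.smul_mem _ hd v
  rw [Algebra.adjoin_singleton_eq_range_aeval] at hzA
  obtain ⟨h', hh'⟩ := hzA
  refine ⟨h', ?_⟩
  rw [← map_dvd_map (algebraMap O k) (IsFractionRing.injective O k) hP]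
  rw [← AdjoinRoot.mk_eq_zero, ← haev, map_sub, map_pow, sub_eq_zero]
  have h4 : aeval pb.gen h' = z := hh'
  rw [h4, hz]

end Pool.Agent.Y850.NZ
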