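import Pool.Agent.Y164.NZ.Stm
import Pool.Agent.Y850.NZ.Red0

/-!
# Powers modulo a prime polynomial with squarefree reduction (project NZ of helper164)
-/

set_option autoImplicit false

namespace Pool.Agent.Y850.NZ

theorem t : Pool.Agent.Y164.NZ.S_RED := fun O k F _ _ _ _ _ _ _ _ ρ hρ ℓ hℓ P G hP hirr hsq hex =>
  red O k F ρ hρ ℓ hℓ P G hP hirr hsq hex

end Pool.Agent.Y850.NZ
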